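import Pool.Agent.H669R4.Sel

/-!
# Explicit algebraic solutions of existential sentences need roots of exponential degree

`Reach d z` : the complex number `z` is obtained from the rational numbers by finitely many (any
number of) additions, multiplications, inversions, radicals `z ^ k = a` of any order `k`, and roots
of nonzero polynomials of degree `< d` whose coefficients have been obtained before; that is, `z` is
the value of a straight-line program with division, radical and root gates.

* The true sentences `sel n` : `x₁ = x₀ x₀ ∧ ⋯ ∧ xₙ = xₙ₋₁ xₙ₋₁ ∧ xₙ = x₀ + 1`, written with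
  `6 n + 5` symbols, have no solution with a coordinate `x₀, …, xₙ` in `Reach (2 ^ n)`.
* Hence, if `D` is such that every true sentence with `s` symbols has a solution all of whose
  coordinates are in `Reach (D s)`, then `D (6 n + 5) > 2 ^ n` for all `n ≥ 3`.
-/

namespace Pool.Agent.Results.MP_88649d_lc.RootDegree

open Pool.Agent.NPC Pool.Agent.NPC.ER Pool.Agent.H669R4

theorem result :
    (∀ n : ℕ, 3 ≤ n → (sel n).toks.length = 6 * n + 5 ∧ ETR (sel n) ∧
      ∀ x : ℕ → ℝ, (sel n).Holds x → ∀ i ≤ n, ¬ Reach (2 ^ n) (x i : ℂ)) ∧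
    (∀ D : ℕ → ℕ,
      (∀ φ : Fm, ETR φ → ∃ x : ℕ → ℝ, φ.Holds x ∧ ∀ i, Reach (D φ.toks.length) (x i : ℂ)) →
      ∀ n : ℕ, 3 ≤ n → 2 ^ n < D (6 * n + 5)) :=
  ⟨fun n hn => ⟨toks_sel n, etr_sel n (by omega), fun _ hx => not_reach_sel hn hx⟩,
    fun D hD n hn => degree_bound D hD n hn⟩

end Pool.Agent.Results.MP_88649d_lc.RootDegree
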